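import Pool.Agent.V5helper59.NS.Mat
import Pool.Agent.V5helper62.RM.Basic

/-!
# Measures of algebraic independence as algebraic independence over the integers of polynomial height
-/

set_option autoImplicit false

namespace Pool.Agent.V5helper59.NS

open Filter Set Pool.Agent.R352.E Pool.Agent.N743.SS Pool.Agent.V5helper62.RM

variable {s : Scale}

/-- numbers with a polynomial measure of algebraic independence are independent -/
theorem indep_of_meas {ι : Type} {x : ι → ℝ} (hx : MeasM x) (s : Scale) :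
    AlgebraicIndependent (B s) (fun i => c s (x i)) := by
  classical
  rw [algebraicIndependent_iff]
  intro p hp
  by_contra hne
  have hl : ∀ m, ∃ (a : Bd s) (z : ℕ → ℤ), (∀ j, a.1 j = z j) ∧ mk s a = ((p.coeff m : B s) : K s) := fun m =>
    (mem_B s).1 (p.coeff m).2
  choose a z hz ha using hl
  let Q : ℕ → MvPolynomial ι ℤ := fun j => ∑ m ∈ p.support, MvPolynomial.monomial m (z m j)
  have hQc : ∀ j m, (Q j).coeff m = if m ∈ p.support then z m j else 0 := by
    intro j m
    simp only [Q, MvPolynomial.coeff_sum, MvPolynomial.coeff_monomial]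
    rw [Finset.sum_ite_eq']
  -- the value
  let S : Bd s := ∑ m ∈ p.support, a m * const s (∏ i ∈ m.support, x i ^ m i)
  have hS : ∀ j, S.1 j = MvPolynomial.aeval x (Q j) := by
    intro j
    have h1 : S.1 j = ∑ m ∈ p.support, (a m).1 j * ∏ i ∈ m.support, x i ^ m i := by
      have h2 : S.1 = ∑ m ∈ p.support, (a m * const s (∏ i ∈ m.support, x i ^ m i)).1 := by
        exact map_sum (Bd s).subtype _ _
      rw [h2, Finset.sum_apply]
      rfl
    rw [h1, map_sum]
    refine Finset.sum_congr rfl fun m hm => ?_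
    rw [MvPolynomial.aeval_monomial, hz]
    simp [Finsupp.prod]
  have hmk : mk s S = 0 := by
    rw [← hp, MvPolynomial.aeval_def, MvPolynomial.eval₂_eq, map_sum]
    refine Finset.sum_congr rfl fun m hm => ?_
    rw [map_mul, ha]
    congr 1
    show c s _ = _
    rw [map_prod]
    simp only [map_pow]
  rw [mk_eq_zero, mem_Ng] at hmk
  -- nonvanishing
  obtain ⟨m₀, hm₀⟩ : ∃ m, m ∈ p.support := by
    by_contra hcon
    push Not at hcon
    exact hne (MvPolynomial.support_eq_empty.1 (Finset.eq_empty_of_forall_notMem hcon))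
  have hne0 : ∀ᶠ j in U, z m₀ j ≠ 0 := by
    rw [← int_ne s (hz m₀), ha]
    intro h0
    exact MvPolynomial.mem_support_iff.1 hm₀ (Subtype.ext h0)
  -- the height
  obtain ⟨A, hA0, hA⟩ : ∃ A : ℝ, 0 ≤ A ∧ ∀ᶠ j in U, ∀ m ∈ p.support, |(z m j : ℝ)| ≤ Real.exp (A * s.T j) := by
    choose A hA using fun m => (a m).2
    refine ⟨∑ m ∈ p.support, |A m|, Finset.sum_nonneg fun _ _ => abs_nonneg _, ?_⟩
    rw [Filter.eventually_all_finset]
    intro m hm
    filter_upwards [hA m, s.ev 0] with j h1 h2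
    rw [← hz]
    refine h1.trans (Real.exp_le_exp.2 (mul_le_mul_of_nonneg_right ?_ h2))
    exact (le_abs_self _).trans (Finset.single_le_sum (f := fun m => |A m|) (fun _ _ => abs_nonneg _) hm)
  obtain ⟨κ, cc, hκ, hcc, hmeas⟩ := hx p.totalDegree
  obtain ⟨j, h1, h2, h3, h4⟩ := (hne0.and (hA.and ((hmk (κ * A + 1)).and (s.ev (-Real.log cc + 1))))).exists
  have h5 : Q j ≠ 0 := by
    intro h0
    have h6 := hQc j m₀
    rw [h0, if_pos hm₀, MvPolynomial.coeff_zero] at h6
    exact h1 h6.symm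
  have h6 : (Q j).totalDegree ≤ p.totalDegree := by
    refine Finset.sup_le fun m hm => MvPolynomial.le_totalDegree ?_
    by_contra h
    rw [MvPolynomial.mem_support_iff, hQc, if_neg h] at hm
    exact hm rfl
  have h7 := hmeas (Q j) h5 h6 (Real.exp (A * s.T j)) (fun m => by
    rw [hQc]
    split_ifs with hm
    · exact h2 m hm
    · simp only [Int.cast_zero, abs_zero]
      positivity)
  rw [← hS] at h7
  have h8 := h7.trans h3
  have h9 : Real.exp (A * s.T j) ^ (-κ) = Real.exp (-(κ * A * s.T j)) := by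
    rw [← Real.exp_mul]
    ring_nf
  rw [h9] at h8
  have h10 : cc ≤ Real.exp (-s.T j) := by
    have h11 : Real.exp (-((κ * A + 1) * s.T j)) = Real.exp (-s.T j) * Real.exp (-(κ * A * s.T j)) := by
      rw [← Real.exp_add]
      ring_nf
    rw [h11] at h8
    exact le_of_mul_le_mul_right h8 (Real.exp_pos _)
  have h12 : Real.exp (-s.T j) < cc := by
    rw [← Real.exp_log hcc]
    exact Real.exp_lt_exp.2 (by linarith)
  linarith

/-- the family `y` is nearly algebraically dependent at the scale `H`: `|Q(y)| < δ` for a nonzero integer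
polynomial of total degree at most `D` with coefficients of absolute value at most `H` -/
def ND {ρ : Type} (D : ℕ) (H δ : ℝ) (y : ρ → ℝ) : Prop :=
  ∃ Q : MvPolynomial ρ ℤ, Q ≠ 0 ∧ Q.totalDegree ≤ D ∧ (∀ m, |((Q.coeff m : ℤ) : ℝ)| ≤ H) ∧
    |MvPolynomial.aeval y Q| < δ

/-- near relations at the scales of a sequence give a relation -/
theorem dep_of_nd {ρ : Type} [Fintype ρ] (y : ρ → ℝ) (D : ℕ) (s : Scale) (H δ : ℕ → ℝ) (A : ℝ)
    (hH : ∀ j, H j ≤ Real.exp (A * s.T j)) (hδ : ∀ E : ℝ, ∀ᶠ j in U, δ j ≤ Real.exp (-(E * s.T j)))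
    (h : ∀ j, ND D (H j) (δ j) y) : ¬ AlgebraicIndependent (B s) (fun i => c s (y i)) := by
  classical
  choose Q hQ hQD hQH hQδ using h
  let a : (ρ →₀ ℕ) → Bd s := fun m => ofInt s (fun j => (Q j).coeff m) A
    (Eventually.of_forall fun j => (hQH j m).trans (hH j))
  have haz : ∀ m j, (a m).1 j = ((Q j).coeff m : ℤ) := fun _ _ => rfl
  have haB : ∀ m, mk s (a m) ∈ B s := fun m => (mem_B s).2 ⟨a m, _, haz m, rfl⟩
  let p : MvPolynomial ρ (B s) := ∑ m ∈ expo ρ D, MvPolynomial.monomial m ⟨mk s (a m), haB m⟩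
  have hpc : ∀ m ∈ expo ρ D, p.coeff m = ⟨mk s (a m), haB m⟩ := by
    intro m hm
    simp only [p, MvPolynomial.coeff_sum, MvPolynomial.coeff_monomial]
    rw [Finset.sum_ite_eq', if_pos hm]
  let S : Bd s := ∑ m ∈ expo ρ D, a m * const s (∏ i, y i ^ m i)
  have hS : ∀ j, S.1 j = MvPolynomial.aeval y (Q j) := by
    intro j
    have h1 : S.1 j = ∑ m ∈ expo ρ D, (a m).1 j * ∏ i, y i ^ m i := by
      have h2 : S.1 = ∑ m ∈ expo ρ D, (a m * const s (∏ i, y i ^ m i)).1 := by
        exact map_sum (Bd s).subtype _ _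
      rw [h2, Finset.sum_apply]
      rfl
    rw [h1, MvPolynomial.aeval_def, MvPolynomial.eval₂_eq']
    refine (Finset.sum_subset (support_subset (hQD j)) fun m _ hm => ?_).symm
    rw [haz, MvPolynomial.notMem_support_iff.1 hm]
    simp
  have hmk : mk s S = 0 := by
    rw [mk_eq_zero, mem_Ng]
    intro E
    filter_upwards [hδ E] with j hj
    rw [hS]
    exact (hQδ j).le.trans hj
  have hval : MvPolynomial.aeval (fun i => c s (y i)) p = 0 := by
    rw [← hmk]
    simp only [p, map_sum, S]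
    refine Finset.sum_congr rfl fun m hm => ?_
    rw [MvPolynomial.aeval_monomial, map_mul, Finsupp.prod_fintype _ _ (fun i => pow_zero _)]
    congr 1
    show _ = c s _
    rw [map_prod]
    simp only [map_pow]
  intro hind
  have hp : p = 0 := (algebraicIndependent_iff.1 hind) p hval
  have h0 : ∀ m ∈ expo ρ D, ∀ᶠ j in U, (Q j).coeff m = 0 := by
    intro m hm
    have h1 := hpc m hm
    rw [hp, MvPolynomial.coeff_zero] at h1
    have h2 : mk s (a m) = 0 := (congrArg Subtype.val h1).symm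
    by_contra h3
    have h4 : ∀ᶠ j in U, (Q j).coeff m ≠ 0 := (Ultrafilter.eventually_not (f := hyperfilter ℕ)).2 h3
    exact (int_ne s (haz m)).2 h4 h2
  rw [← Filter.eventually_all_finset] at h0
  obtain ⟨j, hj⟩ := h0.exists
  apply hQ j
  ext m
  rw [MvPolynomial.coeff_zero]
  by_cases hm : m ∈ expo ρ D
  · exact hj m hm
  · exact MvPolynomial.notMem_support_iff.1 fun h => hm (support_subset (hQD j) h)

/-- **Compactness.** If dependence of the families `y i` implies the independence of `v`, then near dependence of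
all `y i` implies a lower bound for the polynomials in `v`. -/
theorem compact {σ : Type} {ρ : σ → Type} [∀ i, Fintype (ρ i)] (y : ∀ i, ρ i → ℝ) {κ' : Type} [Fintype κ']
    (v : κ' → ℝ) (h : ∀ s : Scale, (∀ i, ¬ AlgebraicIndependent (B s) (fun r => c s (y i r))) →
      AlgebraicIndependent (B s) (fun k => c s (v k))) (D : ℕ) :
    ∃ κ c : ℝ, 0 < κ ∧ 0 < c ∧ ∀ H : ℝ, (∀ i, ND D H (c * H ^ (-κ)) (y i)) →
      ∀ Q : MvPolynomial κ' ℤ, Q ≠ 0 → Q.totalDegree ≤ D → (∀ m, |((Q.coeff m : ℤ) : ℝ)| ≤ H) →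
        c * H ^ (-κ) ≤ |MvPolynomial.aeval v Q| := by
  by_contra hcon
  push Not at hcon
  choose H hH Q hQ hQD hQH hQδ using fun j : ℕ => hcon (j + 1) (Real.exp (-((j : ℝ) + 1) ^ 2)) (by positivity)
    (Real.exp_pos _)
  have hH1 : ∀ j, 1 ≤ H j := fun j => one_le_of_mcoeff (hQ j) (hQH j)
  let s : Scale :=
    { T := fun j => Real.log (H j) + (j + 1)
      tend := by
        refine tendsto_atTop_mono (f := fun j : ℕ => (j : ℝ)) (fun j => ?_) tendsto_natCast_atTop_atTop
        have := Real.log_nonneg (hH1 j)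
        linarith }
  have hsT : ∀ j, s.T j = Real.log (H j) + (j + 1) := fun _ => rfl
  have hA : ∀ j, H j ≤ Real.exp (1 * s.T j) := by
    intro j
    rw [one_mul, hsT, Real.exp_add, Real.exp_log (by linarith [hH1 j])]
    have : 1 ≤ Real.exp ((j : ℝ) + 1) := Real.one_le_exp (by positivity)
    nlinarith [hH1 j]
  have hδ : ∀ E : ℝ, ∀ᶠ j : ℕ in U,
      Real.exp (-((j : ℝ) + 1) ^ 2) * H j ^ (-((j : ℝ) + 1)) ≤ Real.exp (-(E * s.T j)) := by
    intro E
    have h1 : ∀ᶠ j : ℕ in U, E ≤ (j : ℝ) + 1 :=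
      ((tendsto_natCast_atTop_atTop (R := ℝ)).eventually_ge_atTop (E - 1)).filter_mono Nat.hyperfilter_le_atTop
        |>.mono fun j hj => by linarith
    filter_upwards [h1] with j hj
    have h2 : Real.exp (-((j : ℝ) + 1) ^ 2) * H j ^ (-((j : ℝ) + 1)) = Real.exp (-((j + 1) * s.T j)) := by
      rw [Real.rpow_def_of_pos (by linarith [hH1 j]), ← Real.exp_add, hsT]
      ring_nf
    rw [h2]
    have h3 : 0 ≤ s.T j := by
      rw [hsT]
      have := Real.log_nonneg (hH1 j)
      positivity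
    exact Real.exp_le_exp.2 (by nlinarith)
  have hv := h s fun i => dep_of_nd (y i) D s H _ 1 hA hδ fun j => hH j i
  exact dep_of_nd v D s H _ 1 hA hδ (fun j => ⟨Q j, hQ j, hQD j, hQH j, hQδ j⟩) hv

/-- **The general theorem.** Let `x` have a polynomial measure of algebraic independence, let `v` have as many
elements as `x`, let `x i₀` be an element of `v`, and let all `x i` be algebraic over the field of the `u i` and
`v k`. If all the pairs `x i₀, u i` are nearly algebraically dependent, then `v` has a polynomial measure. -/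
theorem relative {ι κ' σ : Type} [Fintype ι] [Fintype κ'] {x : ι → ℝ} (hx : MeasM x) (i₀ : ι) (u : σ → ℝ)
    (v : κ' → ℝ) (k₀ : κ') (hk₀ : v k₀ = x i₀) (h : ∀ i, x i ∈ clF (range u ∪ range v))
    (hc : Fintype.card κ' ≤ Fintype.card ι) (D : ℕ) :
    ∃ κ c : ℝ, 0 < κ ∧ 0 < c ∧ ∀ H : ℝ, (∀ i, ND D H (c * H ^ (-κ)) ![x i₀, u i]) →
      ∀ Q : MvPolynomial κ' ℤ, Q ≠ 0 → Q.totalDegree ≤ D → (∀ m, |((Q.coeff m : ℤ) : ℝ)| ≤ H) →
        c * H ^ (-κ) ≤ |MvPolynomial.aeval v Q| := by
  refine compact (fun i => ![x i₀, u i]) v (fun s hs => ?_) D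
  have hxi := indep_of_meas hx s
  refine indep_of_span hxi (fun i => ?_) hc
  have h0 : AlgebraicIndependent (B s) ![c s (x i₀)] := by
    have h1 := hxi.comp (fun _ : Fin 1 => i₀) (fun a b _ => Subsingleton.elim a b)
    convert h1 using 1
    ext i
    fin_cases i
    rfl
  have hu : ∀ i, c s (u i) ∈ clK (range fun k => c s (v k)) := by
    intro i
    have h1 : ¬ AlgebraicIndependent (B s) ![c s (x i₀), c s (u i)] := by
      have h2 := hs i
      convert h2 using 2
      ext j
      fin_cases j <;> rfl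
    have h2 := mem_of_dep h0 h1
    have h3 : ({c s (x i₀)} : Set (K s)) ⊆ range fun k => c s (v k) := by
      rintro _ rfl
      exact ⟨k₀, congrArg (c s) hk₀⟩
    exact Matroid.closure_subset_closure (M s) h3 h2
  have h1 := cl_map (s := s) (h i)
  have h2 : c s '' (range u ∪ range v) ⊆ clK (range fun k => c s (v k)) := by
    rintro _ ⟨z, ⟨i, rfl⟩ | ⟨k, rfl⟩, rfl⟩
    · exact hu i
    · exact subset_clK _ ⟨k, rfl⟩
  exact Matroid.closure_subset_closure_of_subset_closure h2 h1

end Pool.Agent.V5helper59.NS
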