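import Pool.Agent.R473.JC.Final
import Mathlib

/-!
# Digits of several numbers which are not all near algebraic at the same scale
-/

set_option autoImplicit false

namespace Pool.Agent.V5helper59.NS

open Polynomial Finset Pool.Agent.R473.JC

/-- the numbers `u i` are not all near algebraic at any scale -/
def JointN {ι : Type} (u : ι → ℝ) : Prop :=
  ∀ D : ℕ, ∃ κ c : ℝ, 0 < κ ∧ 0 < c ∧ ∀ (H : ℝ) (P : ι → ℤ[X]),
    (∀ i, P i ≠ 0 ∧ (P i).natDegree ≤ D ∧ ∀ j, |(((P i).coeff j : ℤ) : ℝ)| ≤ H) →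
    ∃ i, c * H ^ (-κ) ≤ |aeval (u i) (P i)|

theorem last_multi {ι : Type} [Fintype ι] [Nonempty ι] (u : ι → ℝ) (hu : JointN u) (r : ℕ) :
    ∃ A : ℝ, 1 ≤ A ∧ ∀ b : ι → ℕ, (∀ i, 2 ≤ b i) → ∀ Λ : ℝ, 0 ≤ Λ → ∀ (L k t : ι → ℕ) (s : ι → ℕ → ℤ),
      (∀ i, t i ≤ L i) → (∀ i l, 0 ≤ s i l ∧ s i l < b i) →
      (∀ i l, t i < l → l ≤ L i → s i l = digit (b i) (u i) l) → (∀ i, ARel (s i) r (L i) (k i)) →
      (∀ i, L i * Real.log (b i) ≤ Λ ∧ Λ < L i * Real.log (b i) + Real.log (b i)) →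
      Λ ≤ A * ∑ i, ((k i : ℝ) + 1 + t i) * Real.log (b i) := by
  choose a ha1 ha using fun i => poly_of_rel (u i) r
  obtain ⟨κ, c, hκ, hc, hj⟩ := hu r
  obtain ⟨m, hm⟩ : ∃ m : ℝ, m = Fintype.card ι := ⟨_, rfl⟩
  have hm1 : 1 ≤ m := by
    rw [hm]
    exact_mod_cast Fintype.card_pos
  obtain ⟨α, hα⟩ : ∃ α : ℝ, α = ∑ i, a i := ⟨_, rfl⟩
  have ha0 : ∀ i, 0 ≤ a i := fun i => by linarith [ha1 i]
  have haα : ∀ i, a i ≤ α := fun i => by
    rw [hα]
    exact single_le_sum (f := a) (fun j _ => ha0 j) (mem_univ i)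
  have hα1 : 1 ≤ α := by
    obtain ⟨i⟩ := ‹Nonempty ι›
    exact (ha1 i).trans (haα i)
  obtain ⟨g, hg⟩ : ∃ g : ℝ, g = (κ + 1) * α + 1 := ⟨_, rfl⟩
  have hg1 : 1 ≤ g := by rw [hg]; nlinarith
  obtain ⟨N, hN⟩ : ∃ N : ℝ, N = 4 * (g * m) := ⟨_, rfl⟩
  have hgm : 1 ≤ g * m := one_le_mul_of_one_le_of_one_le hg1 hm1
  have hN4 : 4 ≤ N := by rw [hN]; linarith
  have hlN : 0 ≤ Real.log N := Real.log_nonneg (by linarith)
  refine ⟨2 * g + 1 + 4 * (g * m * Real.log N) + 4 * |Real.log c|, by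
    have := abs_nonneg (Real.log c)
    have : 0 ≤ g * m * Real.log N := by positivity
    linarith, ?_⟩
  intro b hb Λ hΛ L k t s htL hs hst hrel hL
  choose P hP0 hPd hPc hPv using fun i => ha i (b i) (hb i) (L i) (k i) (t i) (htL i) (s i) (hs i) (hst i) (hrel i)
  have hlb : ∀ i, 1 / 2 < Real.log (b i) := by
    intro i
    have h1 := Real.log_le_log (by norm_num) (show (2 : ℝ) ≤ b i by exact_mod_cast hb i)
    have h2 := Real.log_two_gt_d9
    linarith
  obtain ⟨W, hW⟩ : ∃ W : ι → ℝ, W = fun i => ((k i : ℝ) + 1 + t i) * Real.log (b i) := ⟨_, rfl⟩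
  have hWi : ∀ i, ((k i : ℝ) + 1 + t i) * Real.log (b i) = W i := fun i => by rw [hW]
  have hWb : ∀ i, Real.log (b i) ≤ W i := by
    intro i
    rw [← hWi]
    have h1 := hlb i
    have h2 : (0 : ℝ) ≤ k i := Nat.cast_nonneg _
    have h3 : (0 : ℝ) ≤ t i := Nat.cast_nonneg _
    nlinarith
  have hW0 : ∀ i, 0 ≤ W i := fun i => by linarith [hlb i, hWb i]
  simp only [hWi] at hPc hPv ⊢
  obtain ⟨S, hS⟩ : ∃ S : ℝ, S = ∑ i, W i := ⟨_, rfl⟩
  have hWS : ∀ i, W i ≤ S := fun i => by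
    rw [hS]
    exact single_le_sum (f := W) (fun j _ => hW0 j) (mem_univ i)
  have hS1 : 1 / 2 ≤ S := by
    obtain ⟨i⟩ := ‹Nonempty ι›
    linarith [hlb i, hWb i, hWS i]
  rw [← hS]
  have hlL : ∀ i, 0 ≤ Real.log ((L i : ℝ) + 1) := fun i => Real.log_nonneg (by
    have : (0 : ℝ) ≤ L i := Nat.cast_nonneg _
    linarith)
  obtain ⟨Θ, hΘ⟩ : ∃ Θ : ℝ, Θ = S + ∑ i, Real.log ((L i : ℝ) + 1) := ⟨_, rfl⟩
  have hΘi : ∀ i, W i + Real.log ((L i : ℝ) + 1) ≤ Θ := by
    intro i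
    rw [hΘ]
    have := single_le_sum (f := fun i => Real.log ((L i : ℝ) + 1)) (fun j _ => hlL j) (mem_univ i)
    have := hWS i
    linarith
  have hΘ0 : 0 ≤ Θ := by
    obtain ⟨i⟩ := ‹Nonempty ι›
    linarith [hΘi i, hW0 i, hlL i]
  have hG : ∀ i, a i * (W i + Real.log ((L i : ℝ) + 1)) ≤ α * Θ := fun i =>
    mul_le_mul (haα i) (hΘi i) (by linarith [hW0 i, hlL i]) (by linarith)
  obtain ⟨i, hi⟩ := hj (Real.exp (α * Θ)) P fun i =>
    ⟨hP0 i, hPd i, fun j => (hPc i j).trans (Real.exp_le_exp.2 (hG i))⟩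
  have h1 : c * Real.exp (α * Θ) ^ (-κ) ≤ Real.exp (α * Θ + S - Λ) := by
    refine hi.trans ((hPv i).trans (Real.exp_le_exp.2 ?_))
    have := hG i
    have := (hL i).2
    have := hWb i
    have := hWS i
    linarith
  rw [← Real.exp_mul] at h1
  have h2 : Real.log c + α * Θ * -κ ≤ α * Θ + S - Λ := by
    have h7 := Real.log_le_log (by positivity) h1
    rwa [Real.log_mul hc.ne' (Real.exp_pos _).ne', Real.log_exp, Real.log_exp] at h7
  have hSΘ : S ≤ Θ := by
    rw [hΘ]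
    have : 0 ≤ ∑ i, Real.log ((L i : ℝ) + 1) := sum_nonneg fun i _ => hlL i
    linarith
  have h3 : Λ ≤ g * Θ + |Real.log c| := by
    rw [hg]
    have := neg_abs_le (Real.log c)
    linarith
  -- the logarithms of the lengths
  have h4 : ∑ i, Real.log ((L i : ℝ) + 1) ≤ m * ((2 * Λ + 1) / N + Real.log N) := by
    have h5 : ∀ i, Real.log ((L i : ℝ) + 1) ≤ (2 * Λ + 1) / N + Real.log N := by
      intro i
      have h6 : (0 : ℝ) ≤ L i := Nat.cast_nonneg _
      have h7 := Real.log_le_sub_one_of_pos (show 0 < ((L i : ℝ) + 1) / N by positivity)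
      rw [Real.log_div (by positivity) (by positivity)] at h7
      have h8 : (L i : ℝ) ≤ 2 * Λ := by
        have := (hL i).1
        have := hlb i
        nlinarith
      have h9 : ((L i : ℝ) + 1) / N ≤ (2 * Λ + 1) / N := by gcongr
      linarith
    calc ∑ i, Real.log ((L i : ℝ) + 1) ≤ ∑ _i : ι, ((2 * Λ + 1) / N + Real.log N) := sum_le_sum fun i _ => h5 i
      _ = _ := by rw [sum_const, card_univ, nsmul_eq_mul, hm]
  have h5 : g * m / N = 1 / 4 := by
    rw [hN]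
    have : g * m ≠ 0 := by positivity
    field_simp
  have h6 : g * Θ ≤ g * S + (2 * Λ + 1) / 4 + g * m * Real.log N := by
    calc g * Θ = g * S + g * ∑ i, Real.log ((L i : ℝ) + 1) := by rw [hΘ]; ring
      _ ≤ g * S + g * (m * ((2 * Λ + 1) / N + Real.log N)) := by
          have := mul_le_mul_of_nonneg_left h4 (show 0 ≤ g by linarith)
          linarith
      _ = g * S + (g * m / N) * (2 * Λ + 1) + g * m * Real.log N := by ring
      _ = _ := by rw [h5]; ring
  have h7 : 0 ≤ g * m * Real.log N := by positivity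
  have h8 := abs_nonneg (Real.log c)
  have h9 : 2 * (g * m * Real.log N) ≤ 4 * (g * m * Real.log N) * S := by nlinarith
  have h10 : 2 * |Real.log c| ≤ 4 * |Real.log c| * S := by nlinarith
  calc Λ ≤ 2 * (g * S) + 1 / 2 + 2 * (g * m * Real.log N) + 2 * |Real.log c| := by linarith
    _ ≤ 2 * (g * S) + S + 4 * (g * m * Real.log N) * S + 4 * |Real.log c| * S := by linarith
    _ = _ := by ring

/-- **Several numbers, several bases, a bounded number of changes.** -/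
theorem errors_multi {ι : Type} [Fintype ι] [Nonempty ι] (u : ι → ℝ) (hu : JointN u) (r : ℕ) :
    ∃ A : ℝ, 1 ≤ A ∧ ∀ b : ι → ℕ, (∀ i, 2 ≤ b i) → ∀ (K : ℕ) (Λ : ℝ), 0 ≤ Λ → ∀ (L k : ι → ℕ) (s : ι → ℕ → ℤ),
      (∀ i l, 0 ≤ s i l ∧ s i l < b i) → ∑ i, (chg (b i) (u i) (s i) (L i)).ncard ≤ K →
      (∀ i, ARel (s i) r (L i) (k i)) → (∀ i, Λ ≤ L i * Real.log (b i)) →
      Λ ≤ A ^ (K + 1) * ∑ i, ((k i : ℝ) + 1) * Real.log (b i) := by
  classical
  obtain ⟨A, hA, hmain⟩ := last_multi u hu r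
  obtain ⟨m, hm⟩ : ∃ m : ℝ, m = Fintype.card ι := ⟨_, rfl⟩
  have hm1 : 1 ≤ m := by
    rw [hm]
    exact_mod_cast Fintype.card_pos
  obtain ⟨β, hβ⟩ : ∃ β : ℝ, β = A * (1 + 2 * m) := ⟨_, rfl⟩
  have hβ1 : 1 ≤ β := by rw [hβ]; nlinarith
  refine ⟨β, hβ1, fun b hb K => ?_⟩
  have hlb : ∀ i, 0 < Real.log (b i) := fun i => Real.log_pos (by exact_mod_cast (hb i))
  induction K with
  | zero =>
    intro Λ hΛ L k s hs hK hrel hL
    have hS0 : 0 ≤ ∑ i, ((k i : ℝ) + 1) * Real.log (b i) := sum_nonneg fun i _ => by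
      have := hlb i
      positivity
    have h1 := hmain b hb Λ hΛ (fun i => ⌊Λ / Real.log (b i)⌋₊) k (fun _ => 0) s (fun _ => Nat.zero_le _) hs
      (fun i l hl hl' => by
        by_contra hcon
        have h0 : (chg (b i) (u i) (s i) (L i)).ncard = 0 := by
          have := single_le_sum (f := fun i => (chg (b i) (u i) (s i) (L i)).ncard) (fun j _ => Nat.zero_le _)
            (mem_univ i)
          omega
        rw [Set.ncard_eq_zero (chg_fin _ _ _ _)] at h0
        have h2 : l ∈ chg (b i) (u i) (s i) (L i) := ⟨hl, by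
          have h3 : ⌊Λ / Real.log (b i)⌋₊ ≤ L i := by
            refine Nat.floor_le_of_le ?_
            rw [div_le_iff₀ (hlb i)]
            exact hL i
          omega, hcon⟩
        rw [h0] at h2
        exact h2)
      (fun i => (hrel i).trunc _ (by
        refine Nat.floor_le_of_le ?_
        rw [div_le_iff₀ (hlb i)]
        exact hL i))
      (fun i => ⟨by
        rw [← le_div_iff₀ (hlb i)]
        exact Nat.floor_le (div_nonneg hΛ (hlb i).le), by
        have := Nat.lt_floor_add_one (Λ / Real.log (b i))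
        rw [div_lt_iff₀ (hlb i)] at this
        linarith⟩)
    simp only [Nat.cast_zero, add_zero] at h1
    refine h1.trans ?_
    rw [zero_add, pow_one]
    refine mul_le_mul_of_nonneg_right ?_ hS0
    rw [hβ]
    nlinarith
  | succ K ih =>
    intro Λ hΛ L k s hs hK hrel hL
    obtain ⟨S, hS⟩ : ∃ S : ℝ, S = ∑ i, ((k i : ℝ) + 1) * Real.log (b i) := ⟨_, rfl⟩
    have hterm : ∀ i, Real.log (b i) ≤ ((k i : ℝ) + 1) * Real.log (b i) := fun i => by
      have h1 := hlb i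
      have h2 : (0 : ℝ) ≤ k i := Nat.cast_nonneg _
      nlinarith
    have hbS : ∀ i, Real.log (b i) ≤ S := fun i => by
      refine (hterm i).trans ?_
      rw [hS]
      exact single_le_sum (f := fun i => ((k i : ℝ) + 1) * Real.log (b i)) (fun j _ => by
        have := hlb j
        positivity) (mem_univ i)
    have hS0 : 0 ≤ S := by
      obtain ⟨i⟩ := ‹Nonempty ι›
      linarith [hbS i, hlb i]
    have hLf : ∀ i, ⌊Λ / Real.log (b i)⌋₊ ≤ L i := fun i => by
      refine Nat.floor_le_of_le ?_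
      rw [div_le_iff₀ (hlb i)]
      exact hL i
    choose t ht1 ht2 ht3 using fun i => chg_last (b i) (u i) (s i) (⌊Λ / Real.log (b i)⌋₊)
    have h1 := hmain b hb Λ hΛ (fun i => ⌊Λ / Real.log (b i)⌋₊) k t s ht1 hs ht2
      (fun i => (hrel i).trunc _ (hLf i))
      (fun i => ⟨by
        rw [← le_div_iff₀ (hlb i)]
        exact Nat.floor_le (div_nonneg hΛ (hlb i).le), by
        have := Nat.lt_floor_add_one (Λ / Real.log (b i))
        rw [div_lt_iff₀ (hlb i)] at this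
        linarith⟩)
    have h2 : ∑ i, ((k i : ℝ) + 1 + t i) * Real.log (b i) = S + ∑ i, (t i : ℝ) * Real.log (b i) := by
      rw [hS, ← sum_add_distrib]
      exact sum_congr rfl fun i _ => by ring
    rw [h2] at h1
    rw [← hS]
    obtain ⟨i₀, -, hi₀⟩ := exists_max_image univ (fun i => (t i : ℝ) * Real.log (b i)) univ_nonempty
    have hmax : ∀ i, (t i : ℝ) * Real.log (b i) ≤ (t i₀ : ℝ) * Real.log (b i₀) := fun i => hi₀ i (mem_univ i)
    have hsum : ∑ i, (t i : ℝ) * Real.log (b i) ≤ m * ((t i₀ : ℝ) * Real.log (b i₀)) := by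
      calc ∑ i, (t i : ℝ) * Real.log (b i) ≤ ∑ _i : ι, (t i₀ : ℝ) * Real.log (b i₀) := sum_le_sum fun i _ => hmax i
        _ = _ := by rw [sum_const, card_univ, nsmul_eq_mul, hm]
    have hβK : 1 ≤ β ^ (K + 1) := one_le_pow₀ hβ1
    have hSβ : S ≤ β ^ (K + 1) * S := le_mul_of_one_le_left hS0 hβK
    have key : (t i₀ : ℝ) * Real.log (b i₀) ≤ 2 * (β ^ (K + 1) * S) := by
      rcases Nat.eq_zero_or_pos (t i₀) with h0 | hpos
      · rw [h0, Nat.cast_zero, zero_mul]
        linarith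
      · have h3 := ih (((t i₀ - 1 : ℕ) : ℝ) * Real.log (b i₀)) (by
            have := hlb i₀
            positivity) (Function.update L i₀ (t i₀ - 1)) k s hs ?_ ?_ ?_
        · rw [← hS] at h3
          have h4 : (t i₀ : ℝ) = ((t i₀ - 1 : ℕ) : ℝ) + 1 := by
            exact_mod_cast (Nat.sub_add_cancel hpos).symm
          rw [h4, add_mul, one_mul]
          linarith [hbS i₀]
        · have h5 := ht3 i₀ hpos
          have h6 : (chg (b i₀) (u i₀) (s i₀) (⌊Λ / Real.log (b i₀)⌋₊)).ncard ≤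
              (chg (b i₀) (u i₀) (s i₀) (L i₀)).ncard :=
            Set.ncard_le_ncard (chg_mono _ _ _ (hLf i₀)) (chg_fin _ _ _ _)
          have h7 : ∑ i, (chg (b i) (u i) (s i) (Function.update L i₀ (t i₀ - 1) i)).ncard <
              ∑ i, (chg (b i) (u i) (s i) (L i)).ncard := by
            refine sum_lt_sum (fun i _ => ?_) ⟨i₀, mem_univ _, ?_⟩
            · by_cases hi : i = i₀
              · subst hi
                rw [Function.update_self]
                omega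
              · rw [Function.update_of_ne hi]
            · rw [Function.update_self]
              omega
          omega
        · intro i
          by_cases hi : i = i₀
          · subst hi
            rw [Function.update_self]
            exact (hrel i).trunc _ (by have := ht1 i; have := hLf i; omega)
          · rw [Function.update_of_ne hi]
            exact hrel i
        · intro i
          by_cases hi : i = i₀
          · subst hi
            rw [Function.update_self]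
          · rw [Function.update_of_ne hi]
            refine le_trans ?_ (hL i)
            have h5 : ((t i₀ - 1 : ℕ) : ℝ) ≤ ((⌊Λ / Real.log (b i₀)⌋₊ : ℕ) : ℝ) := by
              have := ht1 i₀
              exact_mod_cast (by omega : t i₀ - 1 ≤ ⌊Λ / Real.log (b i₀)⌋₊)
            calc ((t i₀ - 1 : ℕ) : ℝ) * Real.log (b i₀) ≤ ((⌊Λ / Real.log (b i₀)⌋₊ : ℕ) : ℝ) * Real.log (b i₀) :=
                  mul_le_mul_of_nonneg_right h5 (hlb i₀).le
              _ ≤ Λ := by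
                  rw [← le_div_iff₀ (hlb i₀)]
                  exact Nat.floor_le (div_nonneg hΛ (hlb i₀).le)
    have hA0 : 0 ≤ A := by linarith
    calc Λ ≤ A * (S + ∑ i, (t i : ℝ) * Real.log (b i)) := h1
      _ ≤ A * (β ^ (K + 1) * S + m * (2 * (β ^ (K + 1) * S))) := by
          refine mul_le_mul_of_nonneg_left ?_ hA0
          have := mul_le_mul_of_nonneg_left key (show 0 ≤ m by linarith)
          linarith
      _ = β ^ (K + 1 + 1) * S := by
          rw [pow_succ β (K + 1), hβ]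
          ring

/-- **Several numbers: complexities.** -/
theorem multi {ι : Type} [Fintype ι] [Nonempty ι] (u : ι → ℝ) (hu : JointN u) (r : ℕ) :
    ∃ A : ℝ, 1 ≤ A ∧ ∀ b : ι → ℕ, (∀ i, 2 ≤ b i) → ∀ (K L : ι → ℕ) (Λ : ℝ), 0 ≤ Λ →
      (∀ i, Λ ≤ L i * Real.log (b i)) →
      Λ ≤ A ^ (∑ i, K i + 1) * ∑ i, ((complexity (b i) (u i) r (K i) (L i) : ℝ) + 1) * Real.log (b i) := by
  obtain ⟨A, hA, h⟩ := errors_multi u hu r
  refine ⟨A, hA, fun b hb K L Λ hΛ hL => ?_⟩
  choose s hs hrel using fun i => complexity_mem (b i) (hb i) (u i) r (K i) (L i)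
  exact h b hb (∑ i, K i) Λ hΛ L _ s (fun i => (hs i).1) (sum_le_sum fun i _ => (hs i).2)
    (fun i => arel_of_algRelation _ _ _ _ (hrel i)) hL

/-- **Exceptions in a finite set.** -/
theorem exceptions {ι : Type} [Fintype ι] [DecidableEq ι] (u : ι → ℝ) (m : ℕ) (hm : 1 ≤ m)
    (hu : ∀ Ψ : Finset ι, Ψ.card = m → JointN (fun i : Ψ => u i)) (r : ℕ) :
    ∃ c : ℝ, 0 < c ∧ ∀ (b K L : ℕ), 2 ≤ b →
      {i | (complexity b (u i) r K L : ℝ) + 1 < c ^ (K + 1) * L}.ncard < m := by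
  have h1 : ∀ Ψ : Finset ι, ∃ A : ℝ, 1 ≤ A ∧ (Ψ.card = m → ∀ b : Ψ → ℕ, (∀ i, 2 ≤ b i) →
      ∀ (K L : Ψ → ℕ) (Λ : ℝ), 0 ≤ Λ → (∀ i, Λ ≤ L i * Real.log (b i)) →
      Λ ≤ A ^ (∑ i, K i + 1) * ∑ i, ((complexity (b i) (u i) r (K i) (L i) : ℝ) + 1) * Real.log (b i)) := by
    intro Ψ
    by_cases hΨ : Ψ.card = m
    · have : Nonempty Ψ := by
        rw [← Fintype.card_pos_iff, Fintype.card_coe, hΨ]
        omega
      obtain ⟨A, hA, h⟩ := multi (fun i : Ψ => u i) (hu Ψ hΨ) r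
      exact ⟨A, hA, fun _ => h⟩
    · exact ⟨1, le_rfl, fun h => absurd h hΨ⟩
  choose A hA h using h1
  have hA0 : ∀ Ψ, 0 ≤ A Ψ := fun Ψ => by linarith [hA Ψ]
  obtain ⟨a, ha⟩ : ∃ a : ℝ, a = 1 + ∑ Ψ : Finset ι, A Ψ := ⟨_, rfl⟩
  have haA : ∀ Ψ, A Ψ ≤ a := fun Ψ => by
    have := single_le_sum (f := A) (fun Φ _ => hA0 Φ) (mem_univ Ψ)
    rw [ha]
    linarith
  have ha1 : 1 ≤ a := by
    have : 0 ≤ ∑ Ψ : Finset ι, A Ψ := sum_nonneg fun Ψ _ => hA0 Ψ
    linarith
  have hmR : (1 : ℝ) ≤ m := by exact_mod_cast hm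
  refine ⟨1 / (m * a ^ m), by positivity, fun b K L hb => ?_⟩
  by_contra hcon
  rw [not_lt] at hcon
  obtain ⟨Ψ', hΨ', hΨc⟩ := Set.exists_subset_card_eq hcon
  obtain ⟨Ψ, rfl⟩ : ∃ Ψ : Finset ι, (Ψ : Set ι) = Ψ' := ⟨(Set.toFinite Ψ').toFinset, by simp⟩
  rw [Set.ncard_coe_finset] at hΨc
  have hlb : 0 < Real.log b := Real.log_pos (by exact_mod_cast hb)
  have h2 := h Ψ hΨc (fun _ => b) (fun _ => hb) (fun _ => K) (fun _ => L) (L * Real.log b) (by positivity)
    (fun _ => le_rfl)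
  have hne : Ψ.Nonempty := by
    rw [← card_pos, hΨc]
    omega
  have h3 : ∑ i : Ψ, ((complexity b (u i) r K L : ℝ) + 1) * Real.log b <
      ∑ _i : Ψ, (1 / (m * a ^ m)) ^ (K + 1) * L * Real.log b := by
    refine sum_lt_sum_of_nonempty ?_ fun i _ => mul_lt_mul_of_pos_right (hΨ' i.2) hlb
    rw [univ_nonempty_iff]
    exact hne.to_subtype
  rw [sum_const, card_univ, Fintype.card_coe, hΨc, nsmul_eq_mul] at h3
  have h4 : A Ψ ^ (∑ _i : Ψ, K + 1) ≤ a ^ (m * K + 1) := by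
    rw [sum_const, card_univ, Fintype.card_coe, hΨc, smul_eq_mul]
    exact pow_le_pow_left₀ (hA0 Ψ) (haA Ψ) _
  have hsum0 : 0 ≤ ∑ i : Ψ, ((complexity b (u i) r K L : ℝ) + 1) * Real.log b :=
    sum_nonneg fun i _ => by positivity
  have h5 : (L : ℝ) * Real.log b < a ^ (m * K + 1) * (m * ((1 / (m * a ^ m)) ^ (K + 1) * L * Real.log b)) := by
    have ha0 : 0 < a ^ (m * K + 1) := by positivity
    calc (L : ℝ) * Real.log b ≤ A Ψ ^ (∑ _i : Ψ, K + 1) * ∑ i : Ψ, ((complexity b (u i) r K L : ℝ) + 1) * Real.log b := h2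
      _ ≤ a ^ (m * K + 1) * ∑ i : Ψ, ((complexity b (u i) r K L : ℝ) + 1) * Real.log b :=
          mul_le_mul_of_nonneg_right h4 hsum0
      _ < _ := mul_lt_mul_of_pos_left h3 ha0
  have h6 : a ^ (m * K + 1) * (m * ((1 / (m * a ^ m)) ^ (K + 1) * L * Real.log b)) ≤ L * Real.log b := by
    have h7 : a ^ (m * K + 1) * (m * (1 / (m * a ^ m)) ^ (K + 1)) ≤ 1 := by
      rw [one_div, inv_pow, mul_pow, ← pow_mul, ← div_eq_mul_inv, ← mul_div_assoc, div_le_one (by positivity)]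
      have h8 : a ^ (m * K + 1) ≤ a ^ (m * (K + 1)) := pow_le_pow_right₀ ha1 (by nlinarith)
      have h9 : (m : ℝ) ≤ m ^ (K + 1) := le_self_pow₀ hmR (by omega)
      calc a ^ (m * K + 1) * m ≤ a ^ (m * (K + 1)) * m ^ (K + 1) :=
            mul_le_mul h8 h9 (by positivity) (by positivity)
        _ = _ := mul_comm _ _
    calc a ^ (m * K + 1) * (m * ((1 / (m * a ^ m)) ^ (K + 1) * L * Real.log b))
        = (a ^ (m * K + 1) * (m * (1 / (m * a ^ m)) ^ (K + 1))) * (L * Real.log b) := by ring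
      _ ≤ 1 * (L * Real.log b) := mul_le_mul_of_nonneg_right h7 (by positivity)
      _ = _ := one_mul _
  linarith

end Pool.Agent.V5helper59.NS
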