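import Pool.Agent.V5helper59.NS.Main
import Pool.Agent.V5helper59.NS.Dig

/-!
# Numbers which are not all near algebraic at the same scale
-/

set_option autoImplicit false

namespace Pool.Agent.V5helper59.NS

open Filter Set Pool.Agent.R352.E Pool.Agent.N743.SS Pool.Agent.V5helper62.RM

/-- **Compactness**, the form without a conclusion. -/
theorem compact_not {σ : Type} [Nonempty σ] {ρ : σ → Type} [∀ i, Fintype (ρ i)] (y : ∀ i, ρ i → ℝ)
    (h : ∀ s : Scale, ¬ ∀ i, ¬ AlgebraicIndependent (B s) (fun r => c s (y i r))) (D : ℕ) :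
    ∃ κ c : ℝ, 0 < κ ∧ 0 < c ∧ ∀ H : ℝ, ¬ ∀ i, ND D H (c * H ^ (-κ)) (y i) := by
  by_contra hcon
  push Not at hcon
  choose H hH using fun j : ℕ => hcon (j + 1) (Real.exp (-((j : ℝ) + 1) ^ 2)) (by positivity) (Real.exp_pos _)
  obtain ⟨i₀⟩ := ‹Nonempty σ›
  have hH1 : ∀ j, 1 ≤ H j := fun j => by
    obtain ⟨Q, h1, -, h2, -⟩ := hH j i₀
    exact one_le_of_mcoeff h1 h2
  let s : Scale :=
    { T := fun j => Real.log (H j) + (j + 1)
      tend := by
        refine tendsto_atTop_mono (f := fun j : ℕ => (j : ℝ)) (fun j => ?_) tendsto_natCast_atTop_atTop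
        have := Real.log_nonneg (hH1 j)
        linarith }
  have hsT : ∀ j, s.T j = Real.log (H j) + (j + 1) := fun _ => rfl
  have hA : ∀ j, H j ≤ Real.exp (1 * s.T j) := by
    intro j
    rw [one_mul, hsT, Real.exp_add, Real.exp_log (by linarith [hH1 j])]
    have : 1 ≤ Real.exp ((j : ℝ) + 1) := Real.one_le_exp (by positivity)
    nlinarith [hH1 j]
  have hδ : ∀ E : ℝ, ∀ᶠ j : ℕ in U,
      Real.exp (-((j : ℝ) + 1) ^ 2) * H j ^ (-((j : ℝ) + 1)) ≤ Real.exp (-(E * s.T j)) := by
    intro E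
    have h1 : ∀ᶠ j : ℕ in U, E ≤ (j : ℝ) + 1 :=
      ((tendsto_natCast_atTop_atTop (R := ℝ)).eventually_ge_atTop (E - 1)).filter_mono Nat.hyperfilter_le_atTop
        |>.mono fun j hj => by linarith
    filter_upwards [h1] with j hj
    have h2 : Real.exp (-((j : ℝ) + 1) ^ 2) * H j ^ (-((j : ℝ) + 1)) = Real.exp (-((j + 1) * s.T j)) := by
      rw [Real.rpow_def_of_pos (by linarith [hH1 j]), ← Real.exp_add, hsT]
      ring_nf
    rw [h2]
    have h3 : 0 ≤ s.T j := by
      rw [hsT]
      have := Real.log_nonneg (hH1 j)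
      positivity
    exact Real.exp_le_exp.2 (by nlinarith)
  exact h s fun i => dep_of_nd (y i) D s H _ 1 hA hδ fun j => hH j i

/-- a polynomial in one variable as a polynomial in several variables -/
lemma to_mv (ρ : Type) (e : ρ) (D : ℕ) : ∃ A : ℝ, 1 ≤ A ∧ ∀ (P : Polynomial ℤ) (H : ℝ), P ≠ 0 → P.natDegree ≤ D →
    (∀ j, |((P.coeff j : ℤ) : ℝ)| ≤ H) →
    Polynomial.aeval (MvPolynomial.X e : MvPolynomial ρ ℤ) P ≠ 0 ∧
    (Polynomial.aeval (MvPolynomial.X e : MvPolynomial ρ ℤ) P).totalDegree ≤ D ∧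
    ∀ m, |(((Polynomial.aeval (MvPolynomial.X e : MvPolynomial ρ ℤ) P).coeff m : ℤ) : ℝ)| ≤ A * H := by
  obtain ⟨A, hA⟩ : ∃ A : ℝ, A = (D + 1) * max 1 (lenM (MvPolynomial.X e : MvPolynomial ρ ℤ)) ^ D := ⟨_, rfl⟩
  have hA1 : 1 ≤ A := by
    rw [hA]
    refine one_le_mul_of_one_le_of_one_le ?_ (one_le_pow₀ (le_max_left _ _))
    have : (0 : ℝ) ≤ D := Nat.cast_nonneg _
    linarith
  refine ⟨A, hA1, fun P H hP hPD hPH => ⟨fun h0 => hP ?_, ?_, fun m => ?_⟩⟩
  · have h2 : ∀ R : Polynomial ℤ, MvPolynomial.aeval (fun _ : ρ => (Polynomial.X : Polynomial ℤ))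
        (Polynomial.aeval (MvPolynomial.X e : MvPolynomial ρ ℤ) R) = R := by
      intro R
      induction R using Polynomial.induction_on' with
      | add p q hp hq => rw [map_add, map_add, hp, hq]
      | monomial n a =>
        rw [Polynomial.aeval_monomial, map_mul, map_pow, MvPolynomial.aeval_X]
        simp [Polynomial.C_mul_X_pow_eq_monomial.symm]
    rw [← h2 P, h0, map_zero]
  · rw [Polynomial.aeval_eq_sum_range]
    refine MvPolynomial.totalDegree_finsetSum_le fun i hi => ?_
    rw [Finset.mem_range] at hi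
    refine (MvPolynomial.totalDegree_smul_le _ _).trans ?_
    rw [MvPolynomial.totalDegree_X_pow]
    omega
  · refine (le_lenM _ m).trans ((isLen_aeval isLenM _ P D hPD H hPH).trans ?_)
    rw [hA]
    exact le_of_eq (by ring)

/-- near dependence of families containing `u i` -/
theorem jointN_of_nd {ι ρ : Type} (y : ι → ρ → ℝ) (e : ρ)
    (h : ∀ D : ℕ, ∃ κ c : ℝ, 0 < κ ∧ 0 < c ∧ ∀ H : ℝ, ¬ ∀ i, ND D H (c * H ^ (-κ)) (y i)) :
    JointN (fun i => y i e) := by
  intro D
  obtain ⟨κ, c, hκ, hc, h⟩ := h D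
  obtain ⟨A, hA1, hA⟩ := to_mv ρ e D
  refine ⟨κ, c * A ^ (-κ), hκ, by positivity, fun H P hP => ?_⟩
  by_contra hcon
  push Not at hcon
  rcases isEmpty_or_nonempty ι with hι | ⟨⟨i₀⟩⟩
  · exact h 0 fun i => (hι.false i).elim
  have hH : 0 ≤ H := (abs_nonneg _).trans ((hP i₀).2.2 0)
  refine h (A * H) fun i => ⟨_, (hA (P i) H (hP i).1 (hP i).2.1 (hP i).2.2).1,
    (hA (P i) H (hP i).1 (hP i).2.1 (hP i).2.2).2.1, (hA (P i) H (hP i).1 (hP i).2.1 (hP i).2.2).2.2, ?_⟩
  have h4 : MvPolynomial.aeval (y i) (Polynomial.aeval (MvPolynomial.X e : MvPolynomial ρ ℤ) (P i)) =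
      Polynomial.aeval (y i e) (P i) := by
    rw [← Polynomial.aeval_algHom_apply, MvPolynomial.aeval_X]
  rw [h4, Real.mul_rpow (by linarith) hH, ← mul_assoc]
  exact hcon i

/-- **The general counting theorem.** If `x` has a polynomial measure and is algebraic over the field
of the `w i` and fewer further numbers `v k` than `x` has elements, the numbers `w i` are not all near algebraic. -/
theorem joint_of_alg {ι κ' τ : Type} [Fintype ι] [Fintype τ] [Nonempty κ'] {x : ι → ℝ} (hx : MeasM x)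
    (w : κ' → ℝ) (v : τ → ℝ) (h : ∀ i, x i ∈ clF (range w ∪ range v)) (hc : Fintype.card τ < Fintype.card ι) :
    JointN w := by
  refine jointN_of_nd (fun i (_ : Fin 1) => w i) 0 fun D => compact_not (fun i (_ : Fin 1) => w i) (fun s hs => ?_) D
  have hxi := indep_of_meas hx s
  have hw : ∀ i, c s (w i) ∈ clK (∅ : Set (K s)) := by
    intro i
    by_contra hcon
    apply hs i
    have h1 : (M s).Indep {c s (w i)} := by
      have h2 := ((M s).empty_indep.insert_indep_iff_of_notMem (e := c s (w i)) (notMem_empty _)).2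
        ⟨mem_univ _, hcon⟩
      simpa using h2
    refine (algebraicIndependent_subtype_range (fun a b _ => Subsingleton.elim a b)).1 ?_
    have e : range (fun _ : Fin 1 => c s (w i)) = {c s (w i)} := by
      ext z
      simp [eq_comm]
    rw [e]
    exact h1
  have h1 : (Fintype.card ι : ℕ∞) ≤ (M s).eRk (range fun k => c s (v k)) := by
    have h1 : (M s).Indep (range fun i => c s (x i)) := hxi.to_subtype_range
    have h2 : (range fun i => c s (x i)) ⊆ (M s).closure (range fun k => c s (v k)) := by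
      rintro _ ⟨i, rfl⟩
      have h3 := cl_map (s := s) (h i)
      have h4 : c s '' (range w ∪ range v) ⊆ clK (range fun k => c s (v k)) := by
        rintro _ ⟨z, ⟨i, rfl⟩ | ⟨k, rfl⟩, rfl⟩
        · exact Matroid.closure_subset_closure (M s) (empty_subset _) (hw i)
        · exact subset_clK _ ⟨k, rfl⟩
      exact Matroid.closure_subset_closure_of_subset_closure h4 h3
    calc (Fintype.card ι : ℕ∞) = (range fun i => c s (x i)).encard := by
          rw [← image_univ, hxi.injective.injOn.encard_image, encard_univ, ENat.card_eq_coe_fintype_card]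
      _ ≤ (M s).eRk ((M s).closure (range fun k => c s (v k))) := h1.encard_le_eRk_of_subset h2
      _ = _ := Matroid.eRk_closure_eq (M s) _
  have h2 : (range fun k => c s (v k)).encard ≤ Fintype.card τ := by
    rw [← image_univ, ← ENat.card_eq_coe_fintype_card, ← encard_univ]
    exact encard_image_le _ _
  have h3 := h1.trans ((Matroid.eRk_le_encard _ _).trans h2)
  have h4 : Fintype.card ι ≤ Fintype.card τ := by exact_mod_cast h3
  omega

/-- algebraic over the rationals and a set implies algebraic over the integers and the set -/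
theorem int_alg {S : Set ℝ} {x : ℝ} (h : x ∈ clF S) : IsAlgebraic (Algebra.adjoin ℤ S) x := by
  let L : Subfield ℝ :=
    { carrier := {z | IsAlgebraic (Algebra.adjoin ℤ S) z}
      mul_mem' := fun ha hb => IsAlgebraic.mul ha hb
      one_mem' := isAlgebraic_one
      add_mem' := fun ha hb => IsAlgebraic.add ha hb
      zero_mem' := isAlgebraic_zero
      neg_mem' := fun ha => IsAlgebraic.neg ha
      inv_mem' := fun _ ha => IsAlgebraic.inv ha }
  refine alg_trans L (fun z hz => hz) ?_
  rw [mem_clF] at h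
  have hle : ∀ z ∈ IntermediateField.adjoin ℚ S, z ∈ L := by
    intro z hz
    have h2 : z ∈ Subfield.closure (range (algebraMap ℚ ℝ) ∪ S) := hz
    have h3 : Subfield.closure (range (algebraMap ℚ ℝ) ∪ S) ≤ L := by
      rw [Subfield.closure_le]
      rintro y (⟨q, rfl⟩ | hy)
      · exact SubfieldClass.ratCast_mem _ q
      · exact isAlgebraic_algebraMap (⟨y, Algebra.subset_adjoin hy⟩ : Algebra.adjoin ℤ S)
    exact h3 h2
  let f : IntermediateField.adjoin ℚ S →+* L :=
    { toFun := fun z => ⟨z.1, hle z.1 z.2⟩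
      map_one' := rfl
      map_mul' := fun _ _ => rfl
      map_zero' := rfl
      map_add' := fun _ _ => rfl }
  exact h.ringHom_of_comp_eq f (RingHom.id ℝ) f.injective (by ext z; rfl)

end Pool.Agent.V5helper59.NS
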