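import Pool.Agent.V5helper59.NS.Ring
import Pool.Agent.R352.E.Mat

/-!
# The matroid of algebraic independence over the integers of polynomial height
-/

set_option autoImplicit false

namespace Pool.Agent.V5helper59.NS

open Filter Set Pool.Agent.R352.E

lemma alg_trans {R A : Type} [CommRing R] [IsDomain R] [Field A] [Algebra R A] (L : Subfield A)
    (hL : ∀ z ∈ L, IsAlgebraic R z) {x : A} (h : IsAlgebraic L x) : IsAlgebraic R x := by
  have h1 : IsAlgebraic (Subalgebra.algebraicClosure R A) x := by
    let f : L →+* Subalgebra.algebraicClosure R A :=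
      { toFun := fun z => ⟨z.1, hL z.1 z.2⟩
        map_one' := rfl
        map_mul' := fun _ _ => rfl
        map_zero' := rfl
        map_add' := fun _ _ => rfl }
    exact h.ringHom_of_comp_eq f (RingHom.id A) f.injective (by ext z; rfl)
  exact h1.restrictScalars R

variable (s : Scale)

/-- the matroid of algebraic independence -/
noncomputable abbrev M : Matroid (K s) := AlgebraicIndependent.matroid (B s) (K s)

variable {s}

lemma mem_cl {W : Set (K s)} {x : K s} : x ∈ (M s).closure W ↔ IsAlgebraic (Algebra.adjoin (B s) W) x := by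
  rw [AlgebraicIndependent.matroid_closure_eq]
  exact Iff.rfl

/-- the closure as a subfield -/
noncomputable def clK (W : Set (K s)) : Subfield (K s) where
  carrier := (M s).closure W
  mul_mem' := fun ha hb => mem_cl.2 ((mem_cl.1 ha).mul (mem_cl.1 hb))
  one_mem' := mem_cl.2 isAlgebraic_one
  add_mem' := fun ha hb => mem_cl.2 ((mem_cl.1 ha).add (mem_cl.1 hb))
  zero_mem' := mem_cl.2 isAlgebraic_zero
  neg_mem' := fun ha => mem_cl.2 (mem_cl.1 ha).neg
  inv_mem' := fun _ ha => mem_cl.2 (mem_cl.1 ha).inv

lemma mem_clK {W : Set (K s)} {x : K s} : x ∈ clK W ↔ IsAlgebraic (Algebra.adjoin (B s) W) x := mem_cl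

lemma mem_clK' {W : Set (K s)} {x : K s} : x ∈ clK W ↔ x ∈ (M s).closure W := Iff.rfl

lemma subset_clK (W : Set (K s)) : W ⊆ clK W := Matroid.subset_closure (M s) W (subset_univ _)

/-- an element which is algebraic over a closure is in the closure -/
lemma clK_alg {W : Set (K s)} {x : K s} (h : IsAlgebraic (clK W) x) : x ∈ clK W := by
  rw [mem_clK]
  exact alg_trans (clK W) (fun z hz => mem_clK.1 hz) h

/-- algebraic relations between real numbers stay true -/
theorem cl_map {S : Set ℝ} {x : ℝ} (h : x ∈ clF S) : c s x ∈ clK (c s '' S) := by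
  refine clK_alg ?_
  rw [mem_clF] at h
  have hle : ∀ z ∈ IntermediateField.adjoin ℚ S, c s z ∈ clK (c s '' S) := by
    intro z hz
    have h2 : z ∈ Subfield.closure (range (algebraMap ℚ ℝ) ∪ S) := hz
    have h3 : Subfield.closure (range (algebraMap ℚ ℝ) ∪ S) ≤ (clK (c s '' S)).comap (c s) := by
      rw [Subfield.closure_le]
      rintro y (⟨q, rfl⟩ | hy)
      · exact SubfieldClass.ratCast_mem _ q
      · exact subset_clK _ ⟨y, hy, rfl⟩
    exact h3 h2
  let f : IntermediateField.adjoin ℚ S →+* clK (c s '' S) :=
    { toFun := fun z => ⟨c s z.1, hle z.1 z.2⟩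
      map_one' := Subtype.ext (map_one (c s))
      map_mul' := fun a b => Subtype.ext (map_mul (c s) a.1 b.1)
      map_zero' := Subtype.ext (map_zero (c s))
      map_add' := fun a b => Subtype.ext (map_add (c s) a.1 b.1) }
  exact h.ringHom_of_comp_eq f (c s) f.injective (by ext z; rfl)

/-- as many elements whose closure contains independent elements are independent -/
lemma indep_of_span {ι κ : Type} [Fintype ι] [Fintype κ] {x : ι → K s} (hx : AlgebraicIndependent (B s) x)
    {y : κ → K s} (h : ∀ i, x i ∈ clK (range y)) (hc : Fintype.card κ ≤ Fintype.card ι) :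
    AlgebraicIndependent (B s) y := by
  have h1 : (Fintype.card ι : ℕ∞) ≤ (M s).eRk (range y) := by
    have h1 : (M s).Indep (range x) := hx.to_subtype_range
    have h2 : range x ⊆ (M s).closure (range y) := by
      rintro _ ⟨i, rfl⟩
      exact h i
    calc (Fintype.card ι : ℕ∞) = (range x).encard := by
          rw [← image_univ, hx.injective.injOn.encard_image, encard_univ, ENat.card_eq_coe_fintype_card]
      _ ≤ (M s).eRk ((M s).closure (range y)) := h1.encard_le_eRk_of_subset h2
      _ = (M s).eRk (range y) := Matroid.eRk_closure_eq (M s) _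
  have h2 : (range y).encard ≤ Fintype.card κ := by
    rw [← image_univ, ← ENat.card_eq_coe_fintype_card, ← encard_univ]
    exact encard_image_le _ _
  have h3 : (Fintype.card κ : ℕ∞) ≤ (range y).encard :=
    (by exact_mod_cast hc : (Fintype.card κ : ℕ∞) ≤ Fintype.card ι).trans (h1.trans (Matroid.eRk_le_encard _ _))
  have hfin : (range y).Finite := finite_range y
  have h4 : (M s).Indep (range y) := by
    refine ((M s).isRkFinite_of_finite hfin).indep_of_encard_le_eRk ?_
    exact h2.trans ((by exact_mod_cast hc : (Fintype.card κ : ℕ∞) ≤ Fintype.card ι).trans h1)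
  have hinj : Function.Injective y := by
    rw [← injOn_univ]
    refine Finite.injOn_of_encard_image_eq finite_univ ?_
    rw [image_univ]
    refine le_antisymm (h2.trans ?_) ?_
    · rw [encard_univ, ENat.card_eq_coe_fintype_card]
    · rw [encard_univ, ENat.card_eq_coe_fintype_card]; exact h3
  exact (algebraicIndependent_subtype_range hinj).1 h4

/-- an element which depends on an independent element -/
lemma mem_of_dep {a b : K s} (ha : AlgebraicIndependent (B s) ![a]) (h : ¬ AlgebraicIndependent (B s) ![a, b]) :
    b ∈ clK {a} := by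
  have h1 : (M s).Indep {a} := by
    have := ha.to_subtype_range
    rwa [show range ![a] = {a} by ext z; simp [eq_comm]] at this
  by_contra hb
  apply h
  have hab : b ≠ a := fun hab => hb (hab ▸ subset_clK _ rfl)
  have h2 : (M s).Indep {b, a} := by
    have h3 := (h1.insert_indep_iff_of_notMem (e := b) (by simpa using hab)).2 ⟨mem_univ _, hb⟩
    exact h3
  have hinj : Function.Injective ![a, b] := by
    intro i j hij
    fin_cases i <;> fin_cases j <;> simp_all
  refine (algebraicIndependent_subtype_range hinj).1 ?_
  have e : range ![a, b] = {b, a} := by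
    ext z
    simp [eq_comm, or_comm]
  rw [e]
  exact h2

end Pool.Agent.V5helper59.NS
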