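import Mathlib

/-!
# The field of sequences of polynomial growth modulo sequences of superpolynomial decay

For a sequence `T j → ∞` (the logarithms of the heights) and an ultrafilter finer than `atTop` let `Bd` be the
ring of the real sequences `a` with `|a j| ≤ exp (A T j)` and `Ng` the ideal of the sequences with
`|a j| ≤ exp (-E T j)` for all `E`, in both cases for almost all `j` with respect to the ultrafilter. The
ideal is maximal.
-/

set_option autoImplicit false

namespace Pool.Agent.V5helper59.NS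

open Filter

/-- the ultrafilter -/
noncomputable abbrev U : Filter ℕ := (hyperfilter ℕ : Ultrafilter ℕ)

/-- a sequence of real numbers tending to infinity -/
structure Scale where
  /-- the sequence -/
  T : ℕ → ℝ
  tend : Tendsto T atTop atTop

variable (s : Scale)

lemma Scale.ev (C : ℝ) : ∀ᶠ j in U, C ≤ s.T j :=
  (s.tend.eventually_ge_atTop C).filter_mono Nat.hyperfilter_le_atTop

lemma Scale.ev_exp (C : ℝ) : ∀ᶠ j in U, C ≤ Real.exp (s.T j) :=
  (s.ev C).mono fun j hj => hj.trans (by linarith [Real.add_one_le_exp (s.T j)])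

/-- sequences of polynomial growth -/
def Bd : Subring (ℕ → ℝ) where
  carrier := {a | ∃ A : ℝ, ∀ᶠ j in U, |a j| ≤ Real.exp (A * s.T j)}
  mul_mem' := by
    rintro a b ⟨A, hA⟩ ⟨B, hB⟩
    refine ⟨A + B, ?_⟩
    filter_upwards [hA, hB] with j h1 h2
    rw [Pi.mul_apply, abs_mul, add_mul, Real.exp_add]
    exact mul_le_mul h1 h2 (abs_nonneg _) (Real.exp_nonneg _)
  one_mem' := ⟨0, by simp⟩
  add_mem' := by
    rintro a b ⟨A, hA⟩ ⟨B, hB⟩
    refine ⟨max A B + 1, ?_⟩
    filter_upwards [hA, hB, s.ev 0, s.ev_exp 2] with j h1 h2 h0 h3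
    have e1 : Real.exp (A * s.T j) ≤ Real.exp (max A B * s.T j) :=
      Real.exp_le_exp.2 (mul_le_mul_of_nonneg_right (le_max_left _ _) h0)
    have e2 : Real.exp (B * s.T j) ≤ Real.exp (max A B * s.T j) :=
      Real.exp_le_exp.2 (mul_le_mul_of_nonneg_right (le_max_right _ _) h0)
    rw [Pi.add_apply, add_mul, one_mul, Real.exp_add]
    have h4 := abs_add_le (a j) (b j)
    have h5 := Real.exp_nonneg (max A B * s.T j)
    nlinarith
  zero_mem' := ⟨0, by simp⟩
  neg_mem' := by
    rintro a ⟨A, hA⟩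
    exact ⟨A, by simpa using hA⟩

/-- sequences of superpolynomial decay -/
def Ng : Ideal (Bd s) where
  carrier := {a | ∀ E : ℝ, ∀ᶠ j in U, |a.1 j| ≤ Real.exp (-(E * s.T j))}
  add_mem' := by
    intro a b ha hb E
    filter_upwards [ha (E + 1), hb (E + 1), s.ev_exp 2] with j h1 h2 h3
    have h4 := abs_add_le (a.1 j) (b.1 j)
    have e : Real.exp (-(E * s.T j)) = Real.exp (s.T j) * Real.exp (-((E + 1) * s.T j)) := by
      rw [← Real.exp_add]
      ring_nf
    have h5 := Real.exp_nonneg (-((E + 1) * s.T j))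
    rw [e]
    show |a.1 j + b.1 j| ≤ _
    nlinarith
  zero_mem' := fun E => by
    refine Eventually.of_forall fun j => ?_
    show |(0 : ℝ)| ≤ _
    rw [abs_zero]
    positivity
  smul_mem' := by
    rintro ⟨c, A, hA⟩ a ha E
    filter_upwards [hA, ha (E + A)] with j h1 h2
    show |c j * a.1 j| ≤ _
    rw [abs_mul]
    calc |c j| * |a.1 j| ≤ Real.exp (A * s.T j) * Real.exp (-((E + A) * s.T j)) :=
          mul_le_mul h1 h2 (abs_nonneg _) (Real.exp_nonneg _)
      _ = Real.exp (-(E * s.T j)) := by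
          rw [← Real.exp_add]
          ring_nf

lemma mem_Ng {a : Bd s} : a ∈ Ng s ↔ ∀ E : ℝ, ∀ᶠ j in U, |a.1 j| ≤ Real.exp (-(E * s.T j)) := Iff.rfl

lemma not_mem_Ng {a : Bd s} (h : a ∉ Ng s) : ∃ E : ℝ, ∀ᶠ j in U, Real.exp (-(E * s.T j)) < |a.1 j| := by
  rw [mem_Ng] at h
  push Not at h
  obtain ⟨E, hE⟩ := h
  exact ⟨E, hE⟩

instance : (Ng s).IsMaximal := by
  rw [Ideal.isMaximal_iff]
  constructor
  · intro h
    obtain ⟨j, h1, h2⟩ := ((h 1).and (s.ev 1)).exists
    have h3 : (1 : ℝ) ≤ Real.exp (-(1 * s.T j)) := by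
      have h4 : |(1 : ℝ)| ≤ Real.exp (-(1 * s.T j)) := h1
      rwa [abs_one] at h4
    rw [Real.one_le_exp_iff] at h3
    linarith
  · intro J x hJ hx hxJ
    obtain ⟨E, hE⟩ := not_mem_Ng s hx
    let b : Bd s := ⟨fun j => (x.1 j)⁻¹, E, by
      filter_upwards [hE] with j hj
      rw [abs_inv]
      have h0 := Real.exp_pos (-(E * s.T j))
      calc |x.1 j|⁻¹ ≤ (Real.exp (-(E * s.T j)))⁻¹ := inv_anti₀ h0 hj.le
        _ = Real.exp (E * s.T j) := by rw [← Real.exp_neg, neg_neg]⟩
    have h1 : 1 - b * x ∈ Ng s := by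
      intro E'
      filter_upwards [hE] with j hj
      have h0 := Real.exp_pos (-(E * s.T j))
      have h2 : x.1 j ≠ 0 := by
        intro h3
        rw [h3, abs_zero] at hj
        linarith
      show |1 - (x.1 j)⁻¹ * x.1 j| ≤ _
      rw [inv_mul_cancel₀ h2, sub_self, abs_zero]
      positivity
    have h2 : (1 : Bd s) = (1 - b * x) + b * x := by ring
    rw [h2]
    exact J.add_mem (hJ h1) (J.mul_mem_left _ hxJ)

/-- the residue field -/
abbrev K : Type := Bd s ⧸ Ng s

noncomputable instance : Field (K s) := Ideal.Quotient.field (Ng s)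

/-- the projection -/
noncomputable abbrev mk : Bd s →+* K s := Ideal.Quotient.mk (Ng s)

lemma mk_eq_zero {a : Bd s} : mk s a = 0 ↔ a ∈ Ng s := Ideal.Quotient.eq_zero_iff_mem

/-- constant sequences -/
noncomputable def const : ℝ →+* Bd s where
  toFun r := ⟨fun _ => r, 1, by
    filter_upwards [s.ev_exp |r|] with j hj
    rwa [one_mul]⟩
  map_one' := rfl
  map_mul' _ _ := rfl
  map_zero' := rfl
  map_add' _ _ := rfl

/-- the embedding of the real numbers -/
noncomputable def c : ℝ →+* K s := (mk s).comp (const s)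

/-- sequences of integers -/
def Zs : Subring (Bd s) where
  carrier := {a | ∃ z : ℕ → ℤ, ∀ j, a.1 j = z j}
  mul_mem' := by
    rintro a b ⟨z, hz⟩ ⟨w, hw⟩
    exact ⟨fun j => z j * w j, fun j => by
      show a.1 j * b.1 j = _
      rw [hz, hw]
      push_cast
      rfl⟩
  one_mem' := ⟨fun _ => 1, fun j => by
    show (1 : ℝ) = _
    simp⟩
  add_mem' := by
    rintro a b ⟨z, hz⟩ ⟨w, hw⟩
    exact ⟨fun j => z j + w j, fun j => by
      show a.1 j + b.1 j = _
      rw [hz, hw]
      push_cast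
      rfl⟩
  zero_mem' := ⟨fun _ => 0, fun j => by
    show (0 : ℝ) = _
    simp⟩
  neg_mem' := by
    rintro a ⟨z, hz⟩
    exact ⟨fun j => -z j, fun j => by
      show -a.1 j = _
      rw [hz]
      push_cast
      rfl⟩

/-- the ring of the classes of sequences of integers -/
noncomputable def B : Subring (K s) := (Zs s).map (mk s)

/-- a class of a sequence of integers which is not zero is a class of a sequence of nonzero integers -/
lemma int_ne {a : Bd s} {z : ℕ → ℤ} (hz : ∀ j, a.1 j = z j) : mk s a ≠ 0 ↔ ∀ᶠ j in U, z j ≠ 0 := by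
  rw [Ne, mk_eq_zero]
  constructor
  · intro h
    obtain ⟨E, hE⟩ := not_mem_Ng s h
    filter_upwards [hE] with j hj h0
    have h1 := Real.exp_pos (-(E * s.T j))
    rw [hz, h0, Int.cast_zero, abs_zero] at hj
    linarith
  · intro h h1
    obtain ⟨j, h2, h3, h4⟩ := (h.and ((h1 1).and (s.ev 1))).exists
    have h5 : (1 : ℝ) ≤ |a.1 j| := by
      rw [hz]
      exact_mod_cast Int.one_le_abs h2
    have h6 : Real.exp (-(1 * s.T j)) < 1 := by
      rw [Real.exp_lt_one_iff]
      linarith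
    linarith

lemma mem_B {x : K s} : x ∈ B s ↔ ∃ (a : Bd s) (z : ℕ → ℤ), (∀ j, a.1 j = z j) ∧ mk s a = x := by
  constructor
  · rintro ⟨a, ⟨z, hz⟩, rfl⟩
    exact ⟨a, z, hz, rfl⟩
  · rintro ⟨a, z, hz, rfl⟩
    exact ⟨a, ⟨z, hz⟩, rfl⟩

/-- the sequence of integers as an element of the ring -/
def ofInt (z : ℕ → ℤ) (A : ℝ) (h : ∀ᶠ j in U, |(z j : ℝ)| ≤ Real.exp (A * s.T j)) : Bd s := ⟨fun j => z j, A, h⟩

end Pool.Agent.V5helper59.NS
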